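import Mathlib

/-!
# MS-measurable structures (Macpherson–Steinhorn)

Definition of MS-measurability and the fact that a structure whose universe is the disjoint union
of the images of two definable injections `M → M` is never MS-measurable.
-/

namespace Pool.Agent.Q202.MSM

open FirstOrder FirstOrder.Language Set

universe u v w

variable (L : FirstOrder.Language.{u, v}) (M : Type w) [L.Structure M]

/-- `h` is an MS-measure on `M`: conditions 1, 2, 3 of Macpherson and Steinhorn for the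
parameter-definable subsets of `M ^ n`, `n ≥ 1`. -/
structure IsMSMeasure (h : ∀ n : ℕ, Set (Fin n → M) → ℕ × ℝ) : Prop where
  /-- values lie in `(ℕ × ℝ_{>0}) ∪ {(0,0)}` -/
  codomain : ∀ n, 1 ≤ n → ∀ X : Set (Fin n → M), (univ : Set M).Definable L X →
    0 < (h n X).2 ∨ h n X = (0, 0)
  /-- condition 1 -/
  finitely_many_values : ∀ n, 1 ≤ n → ∀ (k : ℕ) (φ : L.Formula (Fin n ⊕ Fin k)),
    (range fun b : Fin k → M => h n {a | φ.Realize (Sum.elim a b)}).Finite ∧
    ∀ c : ℕ × ℝ, (∅ : Set M).Definable L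
      {b : Fin k → M | h n {a | φ.Realize (Sum.elim a b)} = c}
  /-- condition 2 -/
  finite_sets : ∀ n, 1 ≤ n → ∀ X : Set (Fin n → M), X.Finite → h n X = (0, (X.ncard : ℝ))
  /-- condition 3 (Fubini) -/
  fubini : ∀ n m, 1 ≤ n → 1 ≤ m → ∀ (X : Set (Fin n → M)) (Y : Set (Fin m → M))
    (f : (Fin n → M) → (Fin m → M)),
    (univ : Set M).Definable L X → (univ : Set M).Definable L Y →
    (univ : Set M).Definable L
      {z : Fin n ⊕ Fin m → M | z ∘ Sum.inl ∈ X ∧ f (z ∘ Sum.inl) = z ∘ Sum.inr} →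
    f '' X = Y →
    ∃ (r : ℕ) (Z : Fin r → Set (Fin m → M)) (d : Fin r → ℕ) (μ : Fin r → ℝ),
      (∀ i, (univ : Set M).Definable L (Z i)) ∧ (∀ i, (Z i).Nonempty) ∧
      (∀ i j, i ≠ j → Disjoint (Z i) (Z j)) ∧ (⋃ i, Z i) = Y ∧
      (∀ i, ∀ y ∈ Z i, h n {x | x ∈ X ∧ f x = y} = (d i, μ i)) ∧
      (h n X).1 = Finset.univ.sup (fun i => d i + (h m (Z i)).1) ∧
      (h n X).2 = ∑ i ∈ Finset.univ.filter (fun i => d i + (h m (Z i)).1 = (h n X).1),
        μ i * (h m (Z i)).2

/-- A structure is MS-measurable if it carries an MS-measure. -/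
def MSMeasurable : Prop := ∃ h : ∀ n : ℕ, Set (Fin n → M) → ℕ × ℝ, IsMSMeasure L M h

variable {L M}

/-- the point of `M ^ 1` with coordinate `p` -/
def pt (p : M) : Fin 1 → M := fun _ => p

theorem pt_inj {p q : M} (h : pt p = pt q) : p = q := congrFun h 0

theorem eq_pt (v : Fin 1 → M) : v = pt (v 0) := by
  funext i; rw [Subsingleton.elim i 0]; rfl

theorem def_pt (p : M) : (univ : Set M).Definable L ({pt p} : Set (Fin 1 → M)) := by
  have h := DefinableFun.ofPred_eq_const (L := L) (A := (univ : Set M))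
    (f := fun v : Fin 1 → M => v 0) (DefinableFun.proj L) (mem_univ p)
  convert h using 1
  ext v
  simp only [mem_singleton_iff, Set.mem_ofPred_eq]
  constructor
  · intro h; rw [h]; rfl
  · intro h; rw [eq_pt v, h]

section

variable {h : ∀ n : ℕ, Set (Fin n → M) → ℕ × ℝ} (H : IsMSMeasure L M h)

include H

/-- Finite additivity. -/
theorem additivity [Infinite M] {r : ℕ} (Z : Fin r → Set (Fin 1 → M))
    (hd : ∀ i, (univ : Set M).Definable L (Z i)) (hne : ∀ i, (Z i).Nonempty)
    (hdis : ∀ i j, i ≠ j → Disjoint (Z i) (Z j)) :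
    (h 1 (⋃ i, Z i)).1 = Finset.univ.sup (fun i => (h 1 (Z i)).1) ∧
    (h 1 (⋃ i, Z i)).2 = ∑ i ∈ Finset.univ.filter (fun i => (h 1 (Z i)).1 = (h 1 (⋃ i, Z i)).1),
      (h 1 (Z i)).2 := by
  classical
  set Y := ⋃ i, Z i with hY
  let p : Fin r → M := fun i => Infinite.natEmbedding M i
  have hp : Function.Injective p := by
    intro i j hij
    have := (Infinite.natEmbedding M).injective hij
    exact Fin.ext this
  let g : (Fin 1 → M) → (Fin 1 → M) := fun v => if hv : ∃ i, v ∈ Z i then pt (p hv.choose) else v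
  have hg : ∀ i v, v ∈ Z i → g v = pt (p i) := by
    intro i v hv
    have hex : ∃ i, v ∈ Z i := ⟨i, hv⟩
    have h1 : hex.choose = i := by
      by_contra hne'
      exact Set.disjoint_left.1 (hdis _ _ hne') hex.choose_spec hv
    simp only [g, dif_pos hex, h1]
  have hYdef : (univ : Set M).Definable L Y := definable_iUnion_of_finite hd
  have hgraph : (univ : Set M).Definable L
      {z : Fin 1 ⊕ Fin 1 → M | z ∘ Sum.inl ∈ Y ∧ g (z ∘ Sum.inl) = z ∘ Sum.inr} := by
    have h1 : (univ : Set M).Definable L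
        (⋃ i, ((fun z : Fin 1 ⊕ Fin 1 → M => z ∘ Sum.inl) ⁻¹' (Z i) ∩
          (fun z : Fin 1 ⊕ Fin 1 → M => z ∘ Sum.inr) ⁻¹' {pt (p i)})) :=
      definable_iUnion_of_finite fun i =>
        ((hd i).preimage_comp Sum.inl).inter ((def_pt (p i)).preimage_comp Sum.inr)
    convert h1 using 1
    ext z
    simp only [Set.mem_ofPred_eq, mem_iUnion, mem_inter_iff, mem_preimage, mem_singleton_iff, hY]
    constructor
    · rintro ⟨⟨i, hi⟩, h2⟩
      exact ⟨i, hi, by rw [← h2, hg i _ hi]⟩
    · rintro ⟨i, hi, h2⟩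
      exact ⟨⟨i, hi⟩, by rw [h2, hg i _ hi]⟩
  have himg : g '' Y = ⋃ i, {pt (p i)} := by
    ext v
    simp only [mem_image, mem_iUnion, mem_singleton_iff, hY]
    constructor
    · rintro ⟨x, ⟨i, hi⟩, rfl⟩
      exact ⟨i, hg i x hi⟩
    · rintro ⟨i, rfl⟩
      obtain ⟨x, hx⟩ := hne i
      exact ⟨x, ⟨i, hx⟩, hg i x hx⟩
  have hPdef : (univ : Set M).Definable L (⋃ i, ({pt (p i)} : Set (Fin 1 → M))) :=
    definable_iUnion_of_finite fun i => def_pt (p i)
  obtain ⟨s, W, d, μ, hWd, hWne, hWdis, hWu, hfib, hc1, hc2⟩ :=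
    H.fubini 1 1 le_rfl le_rfl Y _ g hYdef hPdef hgraph himg
  -- the index of the part containing `p i`
  have hJ : ∀ i, ∃ j, pt (p i) ∈ W j := by
    intro i
    have : pt (p i) ∈ ⋃ j, W j := by
      rw [hWu]; exact mem_iUnion.2 ⟨i, rfl⟩
    exact mem_iUnion.1 this
  choose J hJ using hJ
  have hJu : ∀ i j, pt (p i) ∈ W j → J i = j := by
    intro i j hij
    by_contra hne'
    exact Set.disjoint_left.1 (hWdis _ _ hne') (hJ i) hij
  have hfib' : ∀ i, {x | x ∈ Y ∧ g x = pt (p i)} = Z i := by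
    intro i
    ext x
    simp only [Set.mem_ofPred_eq, hY, mem_iUnion]
    constructor
    · rintro ⟨⟨i', hi'⟩, h2⟩
      rw [hg i' x hi'] at h2
      rwa [hp (pt_inj h2)] at hi'
    · intro hx
      exact ⟨⟨i, hx⟩, hg i x hx⟩
  have hZ : ∀ i, h 1 (Z i) = (d (J i), μ (J i)) := by
    intro i
    have := hfib (J i) _ (hJ i)
    rwa [hfib' i] at this
  have hWeq : ∀ j, W j = (fun i => pt (p i)) '' {i | J i = j} := by
    intro j
    ext v
    simp only [mem_image, Set.mem_ofPred_eq]
    constructor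
    · intro hv
      have : v ∈ ⋃ j, W j := mem_iUnion.2 ⟨j, hv⟩
      rw [hWu] at this
      obtain ⟨i, hi⟩ := mem_iUnion.1 this
      rw [mem_singleton_iff] at hi
      subst hi
      exact ⟨i, hJu i j hv, rfl⟩
    · rintro ⟨i, hi, rfl⟩
      rw [← hi]; exact hJ i
  have hWfin : ∀ j, (W j).Finite := by
    intro j; rw [hWeq j]; exact (Set.toFinite _).image _
  have hWcard : ∀ j, (W j).ncard = (Finset.univ.filter fun i => J i = j).card := by
    intro j
    rw [hWeq j, Set.ncard_image_of_injective _ (fun a b hab => hp (pt_inj hab)),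
      ← Set.ncard_coe_finset]
    congr 1
    ext i; simp
  have hWh : ∀ j, h 1 (W j) = (0, ((Finset.univ.filter fun i => J i = j).card : ℝ)) := by
    intro j
    rw [H.finite_sets 1 le_rfl _ (hWfin j), hWcard j]
  have hJs : ∀ j, ∃ i, J i = j := by
    intro j
    obtain ⟨v, hv⟩ := hWne j
    rw [hWeq j] at hv
    obtain ⟨i, hi, -⟩ := hv
    exact ⟨i, hi⟩
  have e1 : (h 1 Y).1 = Finset.univ.sup (fun i => (h 1 (Z i)).1) := by
    rw [hc1]
    apply le_antisymm
    · apply Finset.sup_le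
      intro j _
      obtain ⟨i, hi⟩ := hJs j
      have : d j + (h 1 (W j)).1 = (h 1 (Z i)).1 := by rw [hWh, hZ i, hi]; rfl
      rw [this]
      exact Finset.le_sup (f := fun i => (h 1 (Z i)).1) (Finset.mem_univ i)
    · apply Finset.sup_le
      intro i _
      have : (h 1 (Z i)).1 = d (J i) + (h 1 (W (J i))).1 := by rw [hWh, hZ i]; rfl
      rw [this]
      exact Finset.le_sup (f := fun i => d i + (h 1 (W i)).1) (Finset.mem_univ (J i))
  refine ⟨e1, ?_⟩
  rw [hc2]
  have s1 : ∀ j, d j + (h 1 (W j)).1 = d j := by intro j; rw [hWh]; rfl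
  have s2 : ∀ j, μ j * (h 1 (W j)).2 = ∑ i ∈ Finset.univ.filter (fun i => J i = j), μ (J i) := by
    intro j
    rw [hWh]
    rw [Finset.sum_congr rfl (g := fun _ => μ j)]
    · rw [Finset.sum_const, nsmul_eq_mul, mul_comm]
    · intro i hi
      rw [(Finset.mem_filter.1 hi).2]
  simp only [s1, s2]
  simp only [hZ]
  generalize (h 1 Y).1 = c
  rw [Finset.sum_filter, Finset.sum_filter]
  rw [← Finset.sum_fiberwise (Finset.univ : Finset (Fin r)) J]
  apply Finset.sum_congr rfl
  intro j _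
  split_ifs with hj
  · apply Finset.sum_congr rfl
    intro i hi
    rw [(Finset.mem_filter.1 hi).2, if_pos hj]
  · symm
    apply Finset.sum_eq_zero
    intro i hi
    rw [(Finset.mem_filter.1 hi).2, if_neg hj]

/-- Invariance under definable injections. -/
theorem invariance [Infinite M] (D : M → M) (hD : Function.Injective D)
    (hDd : (univ : Set M).DefinableFun L (fun v : Fin 1 → M => D (v 0))) :
    h 1 (range fun v : Fin 1 → M => pt (D (v 0))) = h 1 univ ∧
    (univ : Set M).Definable L (range fun v : Fin 1 → M => pt (D (v 0))) := by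
  classical
  set F : (Fin 1 → M) → (Fin 1 → M) := fun v => pt (D (v 0)) with hF
  have hFinj : Function.Injective F := by
    intro v w hvw
    rw [eq_pt v, eq_pt w, hD (pt_inj hvw)]
  have hgraph : (univ : Set M).Definable L
      {z : Fin 1 ⊕ Fin 1 → M | z ∘ Sum.inl ∈ (univ : Set (Fin 1 → M)) ∧
        F (z ∘ Sum.inl) = z ∘ Sum.inr} := by
    have h1 : (univ : Set M).DefinableFun L (fun z : Fin 1 ⊕ Fin 1 → M => D (z (Sum.inl 0))) := by
      have := DefinableFun.comp (L := L) (A := (univ : Set M))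
        (g := fun (z : Fin 1 ⊕ Fin 1 → M) (i : Fin 1) => z (Sum.inl i))
        (f := fun v : Fin 1 → M => D (v 0)) (fun i => DefinableFun.proj L) hDd
      exact this
    have h2 := DefinableFun.ofPred_eq h1
      (DefinableFun.proj L (A := (univ : Set M)) (i := (Sum.inr 0 : Fin 1 ⊕ Fin 1)))
    convert h2 using 1
    ext z
    simp only [Set.mem_ofPred_eq, mem_univ, true_and, hF]
    constructor
    · intro h3; exact congrFun h3 0
    · intro h3
      rw [eq_pt (z ∘ Sum.inr)]
      exact congrArg pt h3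
  have hYd : (univ : Set M).Definable L (range F) := by
    have h1 : (univ : Set M).Definable L
        {z : Fin 1 ⊕ Fin 1 → M | F (z ∘ Sum.inr) = z ∘ Sum.inl} := by
      have := hgraph.preimage_comp (Sum.swap : Fin 1 ⊕ Fin 1 → Fin 1 ⊕ Fin 1)
      convert this using 1
      ext z
      simp only [Set.mem_ofPred_eq, mem_preimage, mem_univ, true_and]
      exact Iff.rfl
    have h2 := Definable.exists_of_finite h1
    convert h2 using 1
    ext v
    simp only [Set.mem_ofPred_eq, Sum.elim_comp_inr, Sum.elim_comp_inl]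
    exact Iff.rfl
  obtain ⟨r, Z, d, μ, hZd, hZne, hZdis, hZu, hfib, hc1, hc2⟩ :=
    H.fubini 1 1 le_rfl le_rfl univ (range F) F definable_univ hYd hgraph (by rw [image_univ])
  have hdμ : ∀ i, d i = 0 ∧ μ i = 1 := by
    intro i
    obtain ⟨y, hy⟩ := hZne i
    have hyr : y ∈ range F := by rw [← hZu]; exact mem_iUnion.2 ⟨i, hy⟩
    obtain ⟨x, rfl⟩ := hyr
    have hs : {x' | x' ∈ (univ : Set (Fin 1 → M)) ∧ F x' = F x} = {x} := by
      ext x'
      simp only [Set.mem_ofPred_eq, mem_univ, true_and, mem_singleton_iff]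
      exact ⟨fun h1 => hFinj h1, fun h1 => by rw [h1]⟩
    have h1 := hfib i _ hy
    rw [hs, H.finite_sets 1 le_rfl _ (Set.finite_singleton x), Set.ncard_singleton] at h1
    rw [Prod.mk.injEq] at h1
    exact ⟨h1.1.symm, by simpa using h1.2.symm⟩
  obtain ⟨a1, a2⟩ := additivity H Z hZd hZne hZdis
  rw [hZu] at a1 a2
  refine ⟨?_, hYd⟩
  have b1 : (h 1 univ).1 = (h 1 (range F)).1 := by
    rw [hc1, a1]
    congr 1
    funext i
    rw [(hdμ i).1, zero_add]
  have b2 : (h 1 univ).2 = (h 1 (range F)).2 := by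
    rw [hc2, a2, b1]
    simp only [(hdμ _).1, (hdμ _).2, zero_add, one_mul]
  exact Prod.ext b1.symm b2.symm

end

/-- A structure whose universe is the disjoint union of the ranges of two definable injections
is not MS-measurable. -/
theorem not_MSMeasurable [Nonempty M] (D₀ D₁ : M → M)
    (h₀ : Function.Injective D₀) (h₁ : Function.Injective D₁)
    (hd₀ : (univ : Set M).DefinableFun L (fun v : Fin 1 → M => D₀ (v 0)))
    (hd₁ : (univ : Set M).DefinableFun L (fun v : Fin 1 → M => D₁ (v 0)))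
    (hdis : ∀ x y, D₀ x ≠ D₁ y) (hcov : ∀ z, (∃ x, z = D₀ x) ∨ ∃ x, z = D₁ x) :
    ¬ MSMeasurable L M := by
  classical
  rintro ⟨h, H⟩
  have hinf : Infinite M := by
    by_contra hfin
    rw [not_infinite_iff_finite] at hfin
    obtain ⟨a⟩ := (inferInstance : Nonempty M)
    obtain ⟨x, hx⟩ := (Finite.injective_iff_surjective.1 h₀) (D₁ a)
    exact hdis x a hx
  obtain ⟨e₀, f₀⟩ := invariance H D₀ h₀ hd₀
  obtain ⟨e₁, f₁⟩ := invariance H D₁ h₁ hd₁
  obtain ⟨a⟩ := (inferInstance : Nonempty M)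
  -- first partition
  have A := additivity H (r := 2)
    ![range fun v : Fin 1 → M => pt (D₀ (v 0)), range fun v : Fin 1 → M => pt (D₁ (v 0))]
    (by intro i; fin_cases i; exacts [f₀, f₁])
    (by intro i; fin_cases i; exacts [⟨_, pt a, rfl⟩, ⟨_, pt a, rfl⟩])
    (by
      have key : Disjoint (range fun v : Fin 1 → M => pt (D₀ (v 0)))
          (range fun v : Fin 1 → M => pt (D₁ (v 0))) := by
        rw [Set.disjoint_left]
        rintro _ ⟨v, rfl⟩ ⟨w, hw⟩
        exact hdis _ _ (pt_inj hw).symm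
      intro i j hij
      fin_cases i <;> fin_cases j
      · exact absurd rfl hij
      · exact key
      · exact key.symm
      · exact absurd rfl hij)
  have hU : (⋃ i : Fin 2, (![range fun v : Fin 1 → M => pt (D₀ (v 0)),
      range fun v : Fin 1 → M => pt (D₁ (v 0))] : Fin 2 → Set (Fin 1 → M)) i) = univ := by
    rw [eq_univ_iff_forall]
    intro v
    rw [mem_iUnion]
    rcases hcov (v 0) with ⟨x, hx⟩ | ⟨x, hx⟩
    · exact ⟨0, pt x, by rw [eq_pt v, hx]; rfl⟩
    · exact ⟨1, pt x, by rw [eq_pt v, hx]; rfl⟩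
  rw [hU] at A
  have hz : (h 1 univ).2 = 0 := by
    have h2 := A.2
    rw [Finset.sum_filter, Fin.sum_univ_two] at h2
    simp only [Matrix.cons_val_zero, Matrix.cons_val_one, e₀, e₁, if_true] at h2
    linarith
  have hz' : h 1 univ = (0, 0) := by
    rcases H.codomain 1 le_rfl univ definable_univ with h1 | h1
    · rw [hz] at h1; exact absurd h1 (lt_irrefl _)
    · exact h1
  -- second partition
  have hcne : ({pt a}ᶜ : Set (Fin 1 → M)).Nonempty := by
    obtain ⟨b, hb⟩ := exists_ne a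
    exact ⟨pt b, fun h1 => hb (pt_inj h1)⟩
  have B := additivity H (r := 2) ![{pt a}, {pt a}ᶜ]
    (by intro i; fin_cases i; exacts [def_pt a, (def_pt a).compl])
    (by intro i; fin_cases i; exacts [⟨_, rfl⟩, hcne])
    (by
      have key : Disjoint ({pt a} : Set (Fin 1 → M)) ({pt a}ᶜ) := disjoint_compl_right
      intro i j hij
      fin_cases i <;> fin_cases j
      · exact absurd rfl hij
      · exact key
      · exact key.symm
      · exact absurd rfl hij)
  have hU' : (⋃ i : Fin 2, (![{pt a}, {pt a}ᶜ] : Fin 2 → Set (Fin 1 → M)) i) = univ := by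
    rw [eq_univ_iff_forall]
    intro v
    rw [mem_iUnion]
    by_cases hv : v = pt a
    · exact ⟨0, hv⟩
    · exact ⟨1, hv⟩
  rw [hU', hz'] at B
  obtain ⟨B1, B2⟩ := B
  have c0 : (h 1 ({pt a} : Set (Fin 1 → M))) = (0, 1) := by
    rw [H.finite_sets 1 le_rfl _ (Set.finite_singleton _), Set.ncard_singleton]; simp
  have c1 : (h 1 ({pt a}ᶜ : Set (Fin 1 → M))).1 = 0 := by
    have := Finset.le_sup (f := fun i => (h 1 ((![{pt a}, {pt a}ᶜ] :
      Fin 2 → Set (Fin 1 → M)) i)).1) (Finset.mem_univ (1 : Fin 2))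
    rw [← B1] at this
    simpa using this
  have c2 : 0 ≤ (h 1 ({pt a}ᶜ : Set (Fin 1 → M))).2 := by
    rcases H.codomain 1 le_rfl _ (def_pt a).compl with h1 | h1
    · exact h1.le
    · rw [h1]
  rw [Finset.sum_filter, Fin.sum_univ_two] at B2
  simp only [Matrix.cons_val_zero, Matrix.cons_val_one, c0, c1, if_true] at B2
  linarith

end Pool.Agent.Q202.MSM
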